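import Pool.Agent.SHM.C17

/-!
# MP_2d0b73_an: an infinite-dimensional alphabet with finite sofic mean dimension

There is an infinite-dimensional compact metrizable space `K` such that the full shift over `K` of
every group has sofic mean dimension at most `3`, for every sofic approximation sequence. In
particular Q1 has a negative answer.
-/

namespace Pool.Agent.Results.MP_2d0b73_an.FiniteMeanDimension

open Pool.Agent.SH

theorem result :
    (∃ (K : Type) (_ : TopologicalSpace K) (_ : CompactSpace K)
      (_ : TopologicalSpace.MetrizableSpace K), InfDim K ∧
      ∀ (G : Type) [Group G] (S : SoficSeq G) (ρ : FullShift G K → FullShift G K → ℝ),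
        IsCompatMetric ρ → mdim ρ S ≤ ((3 : ℝ) : EReal)) ∧ ¬ Q1 :=
  main_all

end Pool.Agent.Results.MP_2d0b73_an.FiniteMeanDimension
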